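import Pool.Agent.Lib_helper49.AAM.Uniform
import Pool.Agent.Lib_helper23.ES.Main

/-! One third of the first `K` multiples of every even number, for a set with the four bin
property. -/

set_option autoImplicit false

namespace Pool.Agent.Lib_helper49.AAM

open Finset
open Pool.Agent.Lib_helper23.PG (HitsBins)

open Classical in
/-- **One third of the first `K` multiples of every even number**, with absolute constants. -/
theorem every_even {D : Set ℕ} {k : ℕ} (hk : 0 < k) (hD : HitsBins 4 k D) :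
    ∃ c : ℝ, 0 < c ∧ ∃ C : ℝ, ∀ t : ℕ, 0 < t → Even t → ∀ K : ℕ,
      (K : ℝ) / 3 - C * (K : ℝ) ^ (1 - c) ≤ (#((Icc 1 K).filter fun k => k * t ∈ D) : ℝ) := by
  set G : ℤ → Prop := fun d => 0 < d ∧ d.toNat ∈ D with hG
  have hD' : HitsBins 4 k {d | d ∈ D ∧ 0 < d} := by
    intro H hc hdis hadm
    obtain ⟨i, j, hij, a, ha, b, hb, hab, hm⟩ := hD H hc hdis hadm
    exact ⟨i, j, hij, a, ha, b, hb, hab, hm, by omega⟩
  have hGD : ∀ d ∈ {d | d ∈ D ∧ 0 < d}, G ((d : ℕ) : ℤ) := by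
    intro d hd
    refine ⟨by exact_mod_cast hd.2, ?_⟩
    rw [Int.toNat_natCast]
    exact hd.1
  obtain ⟨c, hc, C, hC⟩ := Pool.Agent.Lib_helper23.ES.every hk hD' hGD
  obtain ⟨c', hc', C', hC'⟩ := uniform_third (G := G) (fun d hd => hd.1) ⟨c, hc, C, fun A h1 h2 => by
    have h3 := hC 3 A (Or.inr ⟨h1, Or.inr ⟨rfl, h2⟩⟩) 4
    have h4 : (Nat.descFactorial 3 4 : ℝ) = 0 := by norm_num [Nat.descFactorial]
    rw [h4, zero_div, sub_zero, one_mul] at h3
    exact_mod_cast h3⟩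
  refine ⟨c', hc', C', fun t ht hte K => (hC' t ht hte K).trans (le_of_eq ?_)⟩
  rw [Nat.cast_inj, ← Set.ncard_coe_finset]
  congr 1
  ext m
  rw [coe_filter, Set.mem_ofPred_eq, Set.mem_ofPred_eq, mem_Icc]
  refine and_congr_right (fun hm => ?_)
  have h5 : ((m : ℤ) * t) = ((m * t : ℕ) : ℤ) := by push_cast; ring
  rw [h5]
  show (0 < ((m * t : ℕ) : ℤ) ∧ ((m * t : ℕ) : ℤ).toNat ∈ D) ↔ _
  rw [Int.toNat_natCast]
  refine ⟨fun h => h.2, fun h => ⟨?_, h⟩⟩
  have h6 : 0 < m * t := Nat.mul_pos (by omega) ht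
  exact_mod_cast h6

end Pool.Agent.Lib_helper49.AAM
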