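import Mathlib

/-! One third of the numbers `1, .., K` from few bad triples. -/

set_option autoImplicit false

namespace Pool.Agent.Lib_helper49.AAM

open Finset

/-- The triples `0 < x < y < z ≤ K` such that `0, x, y, z` miss a class modulo `3` and none of their
differences belongs to `F`. -/
def BadT (F : Finset ℕ) (K : ℕ) : Finset (ℕ × ℕ × ℕ) :=
  ((range (K + 1)) ×ˢ (range (K + 1)) ×ˢ (range (K + 1))).filter fun p =>
    (0 < p.1 ∧ p.1 < p.2.1 ∧ p.2.1 < p.2.2) ∧
    (∃ r < 3, r ≠ 0 ∧ p.1 % 3 ≠ r ∧ p.2.1 % 3 ≠ r ∧ p.2.2 % 3 ≠ r) ∧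
    p.1 ∉ F ∧ p.2.1 ∉ F ∧ p.2.2 ∉ F ∧ p.2.1 - p.1 ∉ F ∧ p.2.2 - p.1 ∉ F ∧ p.2.2 - p.2.1 ∉ F

lemma few_heavy {α β : Type*} [DecidableEq β] (S : Finset α) (f : α → β) (N : Finset β) (m e : ℕ)
    (hN : ∀ b ∈ N, m < #(S.filter (fun a => f a = b))) (hS : #S ≤ m * e) : #N ≤ e := by
  by_contra hcon
  push Not at hcon
  have h1 : #N * (m + 1) ≤ ∑ b ∈ N, #(S.filter (fun a => f a = b)) := by
    rw [← smul_eq_mul]
    exact Finset.card_nsmul_le_sum _ _ _ (fun b hb => hN b hb)
  rw [Finset.sum_card_fiberwise_eq_card_filter] at h1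
  have h2 : #(S.filter (fun a => f a ∈ N)) ≤ #S := card_filter_le _ _
  have h3 : (e + 1) * (m + 1) ≤ #N * (m + 1) := Nat.mul_le_mul_right _ hcon
  nlinarith

/-- the elements of `F` in `[1, K]` and in the class `j` modulo `3` -/
def cl (F : Finset ℕ) (K j : ℕ) : Finset ℕ := F.filter (fun k => (1 ≤ k ∧ k ≤ K) ∧ k % 3 = j)

/-- the numbers of `[1, K]` in the class `j` modulo `3` -/
def al (K j : ℕ) : Finset ℕ := (Icc 1 K).filter (fun k => k % 3 = j)

/-- the core: one class -/
lemma one_class (F : Finset ℕ) (K e : ℕ) (h : #(BadT F K) ≤ e ^ 3) (i : ℕ) (hi : i = 1 ∨ i = 2) :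
    #(al K i) ≤ 1 + 3 * e + #(cl F K 0) + #(cl F K i) + #(cl F K (3 - i)) ∨
    #(al K i) ≤ 1 + 3 * e + #(cl F K 0) + 2 * #(cl F K i) := by
  classical
  -- the good `z`
  set H : Finset ℕ := (al K i).filter (fun z => z ∉ F) with hH
  set w : ℕ → Finset (ℕ × ℕ × ℕ) := fun z => (BadT F K).filter (fun p => p.2.2 = z) with hw
  set Z : Finset ℕ := H.filter (fun z => #(w z) ≤ e ^ 2) with hZ
  have hbadz : ∀ N : Finset ℕ, (∀ z ∈ N, e ^ 2 < #(w z)) → #N ≤ e := fun N hN =>
    few_heavy (BadT F K) (fun p => p.2.2) N (e ^ 2) e hN (by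
      calc #(BadT F K) ≤ e ^ 3 := h
        _ = e ^ 2 * e := by ring)
  have hFi : #(al K i) ≤ #(cl F K i) + #H := by
    have : al K i ⊆ cl F K i ∪ H := by
      intro k hk
      rw [mem_union]
      by_cases hkF : k ∈ F
      · left
        unfold cl
        unfold al at hk
        rw [mem_filter, mem_Icc] at hk
        rw [mem_filter]
        exact ⟨hkF, hk⟩
      · right
        rw [hH, mem_filter]
        exact ⟨hk, hkF⟩
    exact (card_le_card this).trans (card_union_le _ _)
  rcases Z.eq_empty_or_nonempty with hZe | hZne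
  · left
    have h1 : #H ≤ e := by
      refine hbadz H (fun z hz => ?_)
      by_contra hcon
      push Not at hcon
      have : z ∈ Z := by rw [hZ, mem_filter]; exact ⟨hz, hcon⟩
      rw [hZe] at this
      exact absurd this (notMem_empty z)
    omega
  -- the largest good `z`
  set z := Z.max' hZne with hz
  have hzZ : z ∈ Z := Z.max'_mem hZne
  have hzH : z ∈ H := (mem_filter.1 hzZ).1
  have hzw : #(w z) ≤ e ^ 2 := (mem_filter.1 hzZ).2
  have hzF : z ∉ F := (mem_filter.1 hzH).2
  have hzal : z ∈ al K i := (mem_filter.1 hzH).1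
  have hz1 : 1 ≤ z ∧ z ≤ K := by
    have := (mem_filter.1 hzal).1
    rwa [mem_Icc] at this
  have hz3 : z % 3 = i := (mem_filter.1 hzal).2
  have habove : #(H.filter (fun y => z < y)) ≤ e := by
    refine hbadz _ (fun y hy => ?_)
    rw [mem_filter] at hy
    by_contra hcon
    push Not at hcon
    have : y ∈ Z := by rw [hZ, mem_filter]; exact ⟨hy.1, hcon⟩
    have h2 := Z.le_max' y this
    omega
  -- `X0`, `X1`
  set X0 : Finset ℕ := (range z).filter (fun x => 0 < x ∧ x % 3 = 0 ∧ x ∉ F ∧ z - x ∉ F) with hX0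
  set X1 : Finset ℕ := (range z).filter (fun x => 0 < x ∧ x % 3 = i ∧ x ∉ F ∧ z - x ∉ F) with hX1
  have hX01 : #X0 ≤ #X1 := by
    refine card_le_card_of_injOn (fun x => z - x) ?_ ?_
    · intro x hx
      rw [mem_coe, hX0, mem_filter, mem_range] at hx
      obtain ⟨hxz, hx0, hx3, hxF, hzxF⟩ := hx
      show z - x ∈ (X1 : Set ℕ)
      rw [mem_coe, hX1, mem_filter, mem_range]
      refine ⟨by omega, by omega, by omega, hzxF, ?_⟩
      rw [Nat.sub_sub_self hxz.le]
      exact hxF
    · intro x hx y hy hxy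
      rw [mem_coe, hX0, mem_filter, mem_range] at hx hy
      have hxy' : z - x = z - y := hxy
      omega
  -- the count of `X0`
  have hcount : #(al K i) ≤ 1 + e + #X0 + #(cl F K 0) + #(cl F K i) := by
    -- `al K i` is `{z}`, the part above `z`, the part below `z`
    have hsub : al K i ⊆ (({z} ∪ H.filter (fun y => z < y)) ∪ X0.image (fun x => z - x)) ∪
        ((cl F K 0).filter (fun x => x < z)).image (fun x => z - x) ∪ cl F K i := by
      intro k hk
      unfold al at hk
      rw [mem_filter, mem_Icc] at hk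
      obtain ⟨⟨hk1, hk2⟩, hk3⟩ := hk
      simp only [mem_union, mem_singleton]
      by_cases hkF : k ∈ F
      · right
        unfold cl
        rw [mem_filter]
        exact ⟨hkF, ⟨hk1, hk2⟩, hk3⟩
      · left
        rcases lt_trichotomy k z with hlt | heq | hgt
        · by_cases hzkF : z - k ∈ F
          · right
            rw [mem_image]
            refine ⟨z - k, ?_, by omega⟩
            unfold cl
            rw [mem_filter, mem_filter]
            exact ⟨⟨hzkF, ⟨by omega, by omega⟩, by omega⟩, by omega⟩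
          · left
            right
            rw [mem_image]
            refine ⟨z - k, ?_, by omega⟩
            rw [hX0, mem_filter, mem_range]
            refine ⟨by omega, by omega, by omega, hzkF, ?_⟩
            rw [Nat.sub_sub_self hlt.le]
            exact hkF
        · left
          left
          left
          exact heq
        · left
          left
          right
          rw [mem_filter, hH, mem_filter]
          refine ⟨⟨?_, hkF⟩, hgt⟩
          unfold al
          rw [mem_filter, mem_Icc]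
          exact ⟨⟨hk1, hk2⟩, hk3⟩
    have hc := card_le_card hsub
    have c1 := card_union_le ((({z} ∪ H.filter (fun y => z < y)) ∪ X0.image (fun x => z - x)) ∪
        ((cl F K 0).filter (fun x => x < z)).image (fun x => z - x)) (cl F K i)
    have c2 := card_union_le (({z} ∪ H.filter (fun y => z < y)) ∪ X0.image (fun x => z - x))
        (((cl F K 0).filter (fun x => x < z)).image (fun x => z - x))
    have c3 := card_union_le ({z} ∪ H.filter (fun y => z < y)) (X0.image (fun x => z - x))
    have c4 := card_union_le {z} (H.filter (fun y => z < y))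
    have c5 : #(X0.image (fun x => z - x)) ≤ #X0 := card_image_le
    have c6 : #(((cl F K 0).filter (fun x => x < z)).image (fun x => z - x)) ≤ #(cl F K 0) :=
      card_image_le.trans (card_filter_le _ _)
    have c7 : #({z} : Finset ℕ) = 1 := card_singleton z
    omega
  -- the good `x0`
  set Y : Finset ℕ := X0 ∪ X1 with hY
  have hYmem : ∀ y ∈ Y, 0 < y ∧ y < z ∧ (y % 3 = 0 ∨ y % 3 = i) ∧ y ∉ F ∧ z - y ∉ F := by
    intro y hy
    rw [hY, mem_union, hX0, hX1, mem_filter, mem_filter, mem_range] at hy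
    rcases hy with ⟨a, b, c, d, f⟩ | ⟨a, b, c, d, f⟩
    · exact ⟨b, a, Or.inl c, d, f⟩
    · exact ⟨b, a, Or.inr c, d, f⟩
  set v : ℕ → Finset (ℕ × ℕ × ℕ) := fun x => (w z).filter (fun p => p.1 = x) with hv
  have hbadx : ∀ N : Finset ℕ, (∀ x ∈ N, e < #(v x)) → #N ≤ e := fun N hN =>
    few_heavy (w z) (fun p => p.1) N e e hN (by
      calc #(w z) ≤ e ^ 2 := hzw
        _ = e * e := by ring)
  set G : Finset ℕ := Y.filter (fun x => #(v x) ≤ e) with hG
  rcases G.eq_empty_or_nonempty with hGe | hGne
  · right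
    have h1 : #Y ≤ e := by
      refine hbadx Y (fun x hx => ?_)
      by_contra hcon
      push Not at hcon
      have : x ∈ G := by rw [hG, mem_filter]; exact ⟨hx, hcon⟩
      rw [hGe] at this
      exact absurd this (notMem_empty x)
    have h2 : #X0 ≤ #Y := card_le_card subset_union_left
    omega
  set x0 := G.min' hGne with hx0
  have hx0G : x0 ∈ G := G.min'_mem hGne
  have hx0Y : x0 ∈ Y := (mem_filter.1 hx0G).1
  have hx0v : #(v x0) ≤ e := (mem_filter.1 hx0G).2
  have hbelow : #(Y.filter (fun y => y < x0)) ≤ e := by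
    refine hbadx _ (fun y hy => ?_)
    rw [mem_filter] at hy
    by_contra hcon
    push Not at hcon
    have : y ∈ G := by rw [hG, mem_filter]; exact ⟨hy.1, hcon⟩
    have h2 := G.min'_le y this
    omega
  obtain ⟨hx0pos, hx0z, hx03, hx0F, hzx0F⟩ := hYmem x0 hx0Y
  have hbady : #(Y.filter (fun y => x0 < y ∧ y - x0 ∉ F)) ≤ e := by
    refine le_trans (card_le_card_of_injOn (t := v x0) (fun y => (x0, y, z)) ?_ ?_) hx0v
    · intro y hy
      rw [mem_coe, mem_filter] at hy
      obtain ⟨hyY, hxy, hyF'⟩ := hy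
      obtain ⟨hy0, hyz, hy3, hyF, hzyF⟩ := hYmem y hyY
      show (x0, y, z) ∈ (v x0 : Set _)
      rw [mem_coe, hv, mem_filter, hw, mem_filter]
      refine ⟨⟨?_, rfl⟩, rfl⟩
      unfold BadT
      rw [mem_filter, mem_product, mem_product, mem_range, mem_range, mem_range]
      refine ⟨⟨by show x0 < K + 1; omega, by show y < K + 1; omega, by show z < K + 1; omega⟩,
        ⟨hx0pos, hxy, hyz⟩, ⟨3 - i, by omega, by omega, ?_, ?_, ?_⟩, hx0F, hyF, hzF, hyF', hzx0F,
        hzyF⟩
      · show x0 % 3 ≠ 3 - i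
        omega
      · show y % 3 ≠ 3 - i
        omega
      · show z % 3 ≠ 3 - i
        omega
    · intro y hy y' hy' hyy
      have h1 : (x0, y, z) = (x0, y', z) := hyy
      exact (Prod.mk.inj (Prod.mk.inj h1).2).1
  -- the elements of `F` found
  have hfound : ∀ (S : Finset ℕ) (j : ℕ), S ⊆ Y → x0 ∉ S → (∀ y ∈ S, x0 < y → (y - x0) % 3 = j) →
      #S ≤ 2 * e + #(cl F K j) := by
    intro S j hSY hx0S hS3
    have hsub : S ⊆ (Y.filter (fun y => y < x0)) ∪ (Y.filter (fun y => x0 < y ∧ y - x0 ∉ F)) ∪
        (cl F K j).image (fun d => d + x0) := by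
      intro y hy
      have hyY := hSY hy
      obtain ⟨hy0, hyz, hy3, hyF, hzyF⟩ := hYmem y hyY
      rw [mem_union, mem_union, mem_filter, mem_filter, mem_image]
      rcases lt_trichotomy y x0 with hlt | heq | hgt
      · exact Or.inl (Or.inl ⟨hyY, hlt⟩)
      · rw [heq] at hy
        exact absurd hy hx0S
      · by_cases hd : y - x0 ∈ F
        · right
          refine ⟨y - x0, ?_, by omega⟩
          unfold cl
          rw [mem_filter]
          exact ⟨hd, ⟨by omega, by omega⟩, hS3 y hy hgt⟩
        · exact Or.inl (Or.inr ⟨hyY, hgt, hd⟩)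
    have hc := card_le_card hsub
    have c1 := card_union_le ((Y.filter (fun y => y < x0)) ∪
      (Y.filter (fun y => x0 < y ∧ y - x0 ∉ F))) ((cl F K j).image (fun d => d + x0))
    have c2 := card_union_le (Y.filter (fun y => y < x0)) (Y.filter (fun y => x0 < y ∧ y - x0 ∉ F))
    have c3 : #((cl F K j).image (fun d => d + x0)) ≤ #(cl F K j) := card_image_le
    omega
  rcases hx03 with hx03 | hx03
  · -- `x0` in the class `0`
    right
    have h1 := hfound X1 i subset_union_right (by
      intro hx
      rw [hX1, mem_filter] at hx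
      have := hx.2.2.1
      omega) (by
      intro y hy hxy
      rw [hX1, mem_filter] at hy
      have := hy.2.2.1
      omega)
    omega
  · left
    have h1 := hfound X0 (3 - i) subset_union_left (by
      intro hx
      rw [hX0, mem_filter] at hx
      have := hx.2.2.1
      omega) (by
      intro y hy hxy
      rw [hX0, mem_filter] at hy
      have := hy.2.2.1
      omega)
    omega

lemma card_al (K j : ℕ) (hj : j = 1 ∨ j = 2) : #(al K j) = (K + 3 - j) / 3 := by
  induction K with
  | zero => rcases hj with rfl | rfl <;> rfl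
  | succ n ih =>
    have e1 : al (n + 1) j = if (n + 1) % 3 = j then insert (n + 1) (al n j) else al n j := by
      ext k
      unfold al
      split_ifs with hc
      · rw [mem_filter, mem_insert, mem_filter, mem_Icc, mem_Icc]
        constructor
        · rintro ⟨⟨h1, h2⟩, h3⟩
          rcases Nat.lt_or_ge k (n + 1) with h | h
          · exact Or.inr ⟨⟨h1, by omega⟩, h3⟩
          · exact Or.inl (by omega)
        · rintro (h1 | ⟨⟨h1, h2⟩, h3⟩)
          · subst h1
            exact ⟨⟨by omega, le_refl _⟩, hc⟩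
          · exact ⟨⟨h1, by omega⟩, h3⟩
      · rw [mem_filter, mem_filter, mem_Icc, mem_Icc]
        constructor
        · rintro ⟨⟨h1, h2⟩, h3⟩
          refine ⟨⟨h1, ?_⟩, h3⟩
          by_contra hcon
          have : k = n + 1 := by omega
          subst this
          exact hc h3
        · rintro ⟨⟨h1, h2⟩, h3⟩
          exact ⟨⟨h1, by omega⟩, h3⟩
    rw [e1]
    split_ifs with hc
    · rw [card_insert_of_notMem, ih]
      · rcases hj with rfl | rfl <;> omega
      · unfold al
        rw [mem_filter, mem_Icc]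
        omega
    · rw [ih]
      rcases hj with rfl | rfl <;> omega

/-- **One third of `1, .., K`.** If at most `e ^ 3` triples `0 < x < y < z ≤ K`, such that
`0, x, y, z` miss a class modulo `3`, have no difference in `F`, then `F` contains at least
`(K - 2) / 3 - 3 * e` of the numbers `1, .., K`. -/
theorem third (F : Finset ℕ) (K e : ℕ) (h : #(BadT F K) ≤ e ^ 3) :
    (K - 2) / 3 ≤ #(F.filter (fun k => 1 ≤ k ∧ k ≤ K)) + 3 * e := by
  classical
  have hsum : #(cl F K 0) + #(cl F K 1) + #(cl F K 2) = #(F.filter (fun k => 1 ≤ k ∧ k ≤ K)) := by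
    have e0 : ∀ j, cl F K j = (F.filter (fun k => 1 ≤ k ∧ k ≤ K)).filter (fun k => k % 3 = j) := by
      intro j
      unfold cl
      rw [filter_filter]
    rw [e0, e0, e0]
    have e1 := Finset.card_eq_sum_card_fiberwise (s := F.filter (fun k => 1 ≤ k ∧ k ≤ K))
      (f := fun k => k % 3) (t := range 3) (fun k _ => by
        rw [coe_range]
        exact Nat.mod_lt _ (by norm_num))
    rw [e1, Finset.sum_range_succ, Finset.sum_range_succ, Finset.sum_range_succ,
      Finset.sum_range_zero]
    omega
  have h1 := one_class F K e h 1 (Or.inl rfl)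
  have h2 := one_class F K e h 2 (Or.inr rfl)
  rw [card_al K 1 (Or.inl rfl)] at h1
  rw [card_al K 2 (Or.inr rfl)] at h2
  have e1 : 3 - 1 = 2 := rfl
  have e2 : 3 - 2 = 1 := rfl
  rw [e1] at h1
  rw [e2] at h2
  omega

end Pool.Agent.Lib_helper49.AAM
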