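import Pool.Agent.Lib_helper49.AAM.Third

/-! From few quadruples without a difference in `G`, in every finite set of integers, to one third of
the first `K` multiples of every even number. -/

set_option autoImplicit false

namespace Pool.Agent.Lib_helper49.AAM

open Finset

/-- the multiples `t k` with `k ≤ 2 K`, `k` not in the class `h` modulo `3` -/
def Ah (t K h : ℕ) : Finset ℤ :=
  ((range (2 * K + 1)).filter (fun k => k % 3 ≠ h)).image (fun k : ℕ => (t : ℤ) * k)

open Classical in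
/-- the subsets with four elements without a difference in `G` -/
noncomputable def bad4 (G : ℤ → Prop) (A : Finset ℤ) : Finset (Finset ℤ) :=
  (A.powersetCard 4).filter (fun B => ∀ a ∈ B, ∀ b ∈ B, ¬ G (b - a))

lemma card_bad4 {G : ℤ → Prop} {A : Finset ℤ} {x : ℝ}
    (h : ((#A).choose 4 : ℝ) - x ≤
      {B : Finset ℤ | B ⊆ A ∧ #B = 4 ∧ ∃ a ∈ B, ∃ b ∈ B, G (b - a)}.ncard) :
    (#(bad4 G A) : ℝ) ≤ x := by
  classical
  have hsub : bad4 G A ⊆ A.powersetCard 4 := by
    unfold bad4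
    exact filter_subset _ _
  have e1 : {B : Finset ℤ | B ⊆ A ∧ #B = 4 ∧ ∃ a ∈ B, ∃ b ∈ B, G (b - a)} =
      ((A.powersetCard 4 \ bad4 G A : Finset (Finset ℤ)) : Set (Finset ℤ)) := by
    ext B
    rw [coe_sdiff, Set.mem_sdiff, mem_coe, mem_coe, Set.mem_ofPred_eq]
    unfold bad4
    rw [mem_filter, mem_powersetCard]
    constructor
    · rintro ⟨h1, h2, a, ha, b, hb, hab⟩
      exact ⟨⟨h1, h2⟩, fun hcon => hcon.2 a ha b hb hab⟩
    · rintro ⟨⟨h1, h2⟩, h3⟩
      refine ⟨h1, h2, ?_⟩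
      by_contra hcon
      push Not at hcon
      exact h3 ⟨⟨h1, h2⟩, hcon⟩
  rw [e1, Set.ncard_coe_finset] at h
  have e2 := card_sdiff_add_card_eq_card hsub
  rw [card_powersetCard] at e2
  have e3 : (#(A.powersetCard 4 \ bad4 G A) : ℝ) + #(bad4 G A) = ((#A).choose 4 : ℝ) := by
    exact_mod_cast e2
  linarith

/-- the quadruple with smallest element `t u` -/
def quad (t : ℕ) (p : ℕ × (ℕ × ℕ × ℕ)) : Finset ℤ :=
  ({p.1, p.1 + p.2.1, p.1 + p.2.2.1, p.1 + p.2.2.2} : Finset ℕ).image (fun k : ℕ => (t : ℤ) * k)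

lemma quad_inj {t : ℕ} (ht : 0 < t) {p q : ℕ × (ℕ × ℕ × ℕ)}
    (hp : 0 < p.2.1 ∧ p.2.1 < p.2.2.1 ∧ p.2.2.1 < p.2.2.2)
    (hq : 0 < q.2.1 ∧ q.2.1 < q.2.2.1 ∧ q.2.2.1 < q.2.2.2) (h : quad t p = quad t q) : p = q := by
  have hinj : Function.Injective (fun k : ℕ => (t : ℤ) * k) := by
    intro a b hab
    have h1 : (t : ℤ) * a = t * b := hab
    have h2 : (t : ℤ) ≠ 0 := by exact_mod_cast ht.ne'
    exact_mod_cast mul_left_cancel₀ h2 h1
  have h0 : ({p.1, p.1 + p.2.1, p.1 + p.2.2.1, p.1 + p.2.2.2} : Finset ℕ) =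
      {q.1, q.1 + q.2.1, q.1 + q.2.2.1, q.1 + q.2.2.2} := image_injective hinj h
  obtain ⟨u, x, y, z⟩ := p
  obtain ⟨u', x', y', z'⟩ := q
  dsimp only at hp hq h0
  obtain ⟨hx, hxy, hyz⟩ := hp
  obtain ⟨hx', hxy', hyz'⟩ := hq
  have m : ∀ k, k ∈ ({u, u + x, u + y, u + z} : Finset ℕ) ↔
      k ∈ ({u', u' + x', u' + y', u' + z'} : Finset ℕ) := fun k => by rw [h0]
  simp only [mem_insert, mem_singleton] at m
  have a1 := (m u).1 (Or.inl rfl)
  have a2 := (m u').2 (Or.inl rfl)
  have hu : u = u' := by omega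
  subst hu
  have b1 := (m (u + x)).1 (Or.inr (Or.inl rfl))
  have b2 := (m (u + x')).2 (Or.inr (Or.inl rfl))
  have hxx : x = x' := by omega
  subst hxx
  have c1 := (m (u + y)).1 (Or.inr (Or.inr (Or.inl rfl)))
  have c2 := (m (u + y')).2 (Or.inr (Or.inr (Or.inl rfl)))
  have hyy : y = y' := by omega
  subst hyy
  have d1 := (m (u + z)).1 (Or.inr (Or.inr (Or.inr rfl)))
  have d2 := (m (u + z')).2 (Or.inr (Or.inr (Or.inr rfl)))
  have hzz : z = z' := by omega
  subst hzz
  rfl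

lemma bad_triples {G : ℤ → Prop} (hG : ∀ d, G d → 0 < d) (t : ℕ) (ht : 0 < t) (K : ℕ)
    (F : Finset ℕ) (hF : ∀ k, 1 ≤ k → k ≤ K → k ∉ F → ¬ G ((k : ℤ) * t)) :
    (K + 1) * #(BadT F K) ≤ ∑ h ∈ range 3, #(bad4 G (Ah t K h)) := by
  classical
  have hinj : Function.Injective (fun k : ℕ => (t : ℤ) * k) := by
    intro a b hab
    have h1 : (t : ℤ) * a = t * b := hab
    have h2 : (t : ℤ) ≠ 0 := by exact_mod_cast ht.ne'
    exact_mod_cast mul_left_cancel₀ h2 h1
  have htpos : (0 : ℤ) < t := by exact_mod_cast ht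
  have h1 : #((range (K + 1)) ×ˢ (BadT F K)) ≤
      #((range 3).biUnion (fun h => bad4 G (Ah t K h))) := by
    refine card_le_card_of_injOn (quad t) ?_ ?_
    · rintro ⟨u, x, y, z⟩ hp
      rw [mem_coe, mem_product, mem_range] at hp
      obtain ⟨hu, hb⟩ := hp
      unfold BadT at hb
      rw [mem_filter, mem_product, mem_product, mem_range, mem_range, mem_range] at hb
      obtain ⟨⟨hxK, hyK, hzK⟩, ⟨hx0, hxy, hyz⟩, ⟨r, hr3, hr0, hrx, hry, hrz⟩, hxF, hyF, hzF, hyxF,
        hzxF, hzyF⟩ := hb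
      dsimp only at hu hxK hyK hzK hx0 hxy hyz hrx hry hrz hxF hyF hzF hyxF hzxF hzyF
      rw [mem_coe, mem_biUnion]
      refine ⟨(u + r) % 3, mem_range.2 (Nat.mod_lt _ (by norm_num)), ?_⟩
      unfold bad4
      rw [mem_filter, mem_powersetCard]
      have hmem : ∀ k ∈ ({u, u + x, u + y, u + z} : Finset ℕ),
          k = u ∨ k = u + x ∨ k = u + y ∨ k = u + z := by
        intro k hk
        rw [mem_insert, mem_insert, mem_insert, mem_singleton] at hk
        exact hk
      refine ⟨⟨?_, ?_⟩, ?_⟩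
      · unfold quad Ah
        refine image_subset_image ?_
        intro k hk
        rw [mem_filter, mem_range]
        rcases hmem k hk with rfl | rfl | rfl | rfl
        · omega
        · omega
        · omega
        · omega
      · unfold quad
        rw [card_image_of_injective _ hinj]
        dsimp only
        rw [card_insert_of_notMem, card_insert_of_notMem, card_insert_of_notMem, card_singleton]
        · rw [mem_singleton]; omega
        · rw [mem_insert, mem_singleton]; omega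
        · rw [mem_insert, mem_insert, mem_singleton]; omega
      · intro a ha b hb hab
        unfold quad at ha hb
        rw [mem_image] at ha hb
        obtain ⟨k, hk, rfl⟩ := ha
        obtain ⟨l, hl, rfl⟩ := hb
        have hpos := hG _ hab
        have hkl : k < l := by
          by_contra hcon
          push Not at hcon
          have h2 : (l : ℤ) ≤ k := by exact_mod_cast hcon
          nlinarith
        have hdiff : (t : ℤ) * l - t * k = ((l - k : ℕ) : ℤ) * t := by
          rw [Nat.cast_sub hkl.le]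
          ring
        rw [hdiff] at hab
        refine hF (l - k) (by omega) ?_ ?_ hab
        · rcases hmem k hk with h1 | h1 | h1 | h1 <;> rcases hmem l hl with h2 | h2 | h2 | h2 <;>
            omega
        · rcases hmem k hk with h1 | h1 | h1 | h1 <;> rcases hmem l hl with h2 | h2 | h2 | h2
          all_goals first
            | omega
            | (have e : l - k = x := by omega
               rw [e]; exact hxF)
            | (have e : l - k = y := by omega
               rw [e]; exact hyF)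
            | (have e : l - k = z := by omega
               rw [e]; exact hzF)
            | (have e : l - k = y - x := by omega
               rw [e]; exact hyxF)
            | (have e : l - k = z - x := by omega
               rw [e]; exact hzxF)
            | (have e : l - k = z - y := by omega
               rw [e]; exact hzyF)
    · rintro p hp q hq hpq
      rw [mem_coe, mem_product] at hp hq
      have hp2 := hp.2
      have hq2 := hq.2
      unfold BadT at hp2 hq2
      rw [mem_filter] at hp2 hq2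
      exact quad_inj ht hp2.2.1 hq2.2.1 hpq
  rw [card_product, card_range] at h1
  exact h1.trans card_biUnion_le

/-- **One third of the first `K` multiples of every even number.** -/
theorem uniform_third {G : ℤ → Prop} (hG : ∀ d, G d → 0 < d)
    (hE : ∃ c : ℝ, 0 < c ∧ ∃ C : ℝ, ∀ A : Finset ℤ, (∀ a ∈ A, ∀ b ∈ A, Even (a - b)) →
      (∃ h : ℤ, ∀ a ∈ A, ¬ 3 ∣ a - h) →
      ((#A).choose 4 : ℝ) - C * (#A : ℝ) ^ ((4 : ℝ) - c) ≤
        {B : Finset ℤ | B ⊆ A ∧ #B = 4 ∧ ∃ a ∈ B, ∃ b ∈ B, G (b - a)}.ncard) :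
    ∃ c : ℝ, 0 < c ∧ ∃ C : ℝ, ∀ t : ℕ, 0 < t → Even t → ∀ K : ℕ,
      (K : ℝ) / 3 - C * (K : ℝ) ^ (1 - c) ≤
        ({k : ℕ | (1 ≤ k ∧ k ≤ K) ∧ G ((k : ℤ) * t)}.ncard : ℝ) := by
  classical
  obtain ⟨c, hc, C, hC⟩ := hE
  set c' : ℝ := min c 1 with hc'
  have hc'0 : 0 < c' := lt_min hc one_pos
  have hc'1 : c' ≤ 1 := min_le_right _ _
  have hc'c : c' ≤ c := min_le_left _ _
  set B : ℝ := 243 * |C| with hB
  have hB0 : 0 ≤ B := by positivity
  set S : ℝ := B ^ ((1 : ℝ) / 3) with hS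
  have hS0 : 0 ≤ S := Real.rpow_nonneg hB0 _
  refine ⟨c' / 3, by positivity, 3 * (S + 1) + 2, fun t ht hte K => ?_⟩
  set F : Finset ℕ := (Icc 1 K).filter (fun k : ℕ => G ((k : ℤ) * t)) with hF
  have hset : {k : ℕ | (1 ≤ k ∧ k ≤ K) ∧ G ((k : ℤ) * t)} = (F : Set ℕ) := by
    ext k
    rw [hF, coe_filter, Set.mem_ofPred_eq, Set.mem_ofPred_eq, mem_Icc]
  rw [hset, Set.ncard_coe_finset]
  rcases Nat.eq_zero_or_pos K with hK0 | hKpos
  · subst hK0
    have h1 : (1 : ℝ) - c' / 3 ≠ 0 := by linarith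
    rw [Nat.cast_zero, Real.zero_rpow h1]
    have h2 : (0 : ℝ) ≤ #F := Nat.cast_nonneg _
    linarith
  have hK1 : (1 : ℝ) ≤ K := by exact_mod_cast hKpos
  have hKr : (0 : ℝ) < K := by linarith
  -- the sets `Ah`
  have hAh : ∀ h ∈ range 3, (#(bad4 G (Ah t K h)) : ℝ) ≤ 81 * |C| * (K : ℝ) ^ (4 - c') := by
    intro h hh
    rw [mem_range] at hh
    have heven : ∀ a ∈ Ah t K h, ∀ b ∈ Ah t K h, Even (a - b) := by
      intro a ha b hb
      unfold Ah at ha hb
      rw [mem_image] at ha hb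
      obtain ⟨k, _, rfl⟩ := ha
      obtain ⟨l, _, rfl⟩ := hb
      rw [← mul_sub]
      exact Even.mul_right (by exact_mod_cast hte) _
    have hmiss : ∃ g : ℤ, ∀ a ∈ Ah t K h, ¬ 3 ∣ a - g := by
      by_cases h3 : 3 ∣ t
      · refine ⟨1, fun a ha hcon => ?_⟩
        unfold Ah at ha
        rw [mem_image] at ha
        obtain ⟨k, _, rfl⟩ := ha
        obtain ⟨m, rfl⟩ := h3
        push_cast at hcon
        rw [mul_assoc] at hcon
        omega
      · refine ⟨(t : ℤ) * h, fun a ha hcon => ?_⟩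
        unfold Ah at ha
        rw [mem_image] at ha
        obtain ⟨k, hk, rfl⟩ := ha
        rw [mem_filter] at hk
        rw [← mul_sub] at hcon
        rcases Int.prime_three.dvd_or_dvd hcon with h4 | h4
        · exact h3 (by exact_mod_cast h4)
        · omega
    refine (card_bad4 (hC (Ah t K h) heven hmiss)).trans ?_
    have hAcard : #(Ah t K h) ≤ 2 * K + 1 := by
      unfold Ah
      exact card_image_le.trans ((card_filter_le _ _).trans (by rw [card_range]))
    have hApos : 1 ≤ #(Ah t K h) := by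
      rw [Nat.one_le_iff_ne_zero]
      intro h0
      rw [card_eq_zero] at h0
      have h5 : (t : ℤ) * ((if h = 0 then 1 else 0 : ℕ) : ℤ) ∈ Ah t K h := by
        unfold Ah
        refine mem_image_of_mem _ ?_
        rw [mem_filter, mem_range]
        split_ifs with h6 <;> omega
      rw [h0] at h5
      exact absurd h5 (notMem_empty _)
    have hA1 : (1 : ℝ) ≤ #(Ah t K h) := by exact_mod_cast hApos
    have hA3 : (#(Ah t K h) : ℝ) ≤ 3 * K := by
      have h6 : (#(Ah t K h) : ℝ) ≤ 2 * K + 1 := by exact_mod_cast hAcard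
      linarith
    calc C * (#(Ah t K h) : ℝ) ^ (4 - c) ≤ |C| * (#(Ah t K h) : ℝ) ^ (4 - c) :=
          mul_le_mul_of_nonneg_right (le_abs_self C) (Real.rpow_nonneg (by linarith) _)
      _ ≤ |C| * (#(Ah t K h) : ℝ) ^ (4 - c') :=
          mul_le_mul_of_nonneg_left (Real.rpow_le_rpow_of_exponent_le hA1 (by linarith))
            (abs_nonneg C)
      _ ≤ |C| * (3 * K : ℝ) ^ (4 - c') :=
          mul_le_mul_of_nonneg_left (Real.rpow_le_rpow (by linarith) hA3 (by linarith))
            (abs_nonneg C)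
      _ = |C| * ((3 : ℝ) ^ (4 - c') * (K : ℝ) ^ (4 - c')) := by
          rw [Real.mul_rpow (by norm_num) hKr.le]
      _ ≤ |C| * (81 * (K : ℝ) ^ (4 - c')) := by
          refine mul_le_mul_of_nonneg_left (mul_le_mul_of_nonneg_right ?_
            (Real.rpow_nonneg hKr.le _)) (abs_nonneg C)
          calc (3 : ℝ) ^ (4 - c') ≤ (3 : ℝ) ^ (4 : ℝ) :=
                Real.rpow_le_rpow_of_exponent_le (by norm_num) (by linarith)
            _ = 81 := by norm_num
      _ = 81 * |C| * (K : ℝ) ^ (4 - c') := by ring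
  have htrip := bad_triples hG t ht K F (fun k h1 h2 h3 h4 => h3 (by
    rw [hF, mem_filter, mem_Icc]
    exact ⟨⟨h1, h2⟩, h4⟩))
  have hbad : (#(BadT F K) : ℝ) ≤ B * (K : ℝ) ^ (3 - c') := by
    have h1 : ((K : ℝ) + 1) * #(BadT F K) ≤ ∑ h ∈ range 3, (#(bad4 G (Ah t K h)) : ℝ) := by
      exact_mod_cast htrip
    have h2 : ∑ h ∈ range 3, (#(bad4 G (Ah t K h)) : ℝ) ≤ ∑ _h ∈ range 3,
        81 * |C| * (K : ℝ) ^ (4 - c') := Finset.sum_le_sum hAh
    rw [Finset.sum_const, card_range, nsmul_eq_mul] at h2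
    have h3 : (K : ℝ) ^ (4 - c') = K * (K : ℝ) ^ (3 - c') := by
      have h4 : (4 : ℝ) - c' = 1 + (3 - c') := by ring
      rw [h4, Real.rpow_add hKr, Real.rpow_one]
    have h5 : (K : ℝ) * #(BadT F K) ≤ K * (B * (K : ℝ) ^ (3 - c')) := by
      calc (K : ℝ) * #(BadT F K) ≤ ((K : ℝ) + 1) * #(BadT F K) :=
            mul_le_mul_of_nonneg_right (by linarith) (Nat.cast_nonneg _)
        _ ≤ _ := h1.trans h2
        _ = K * (B * (K : ℝ) ^ (3 - c')) := by
            rw [h3, hB]
            push_cast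
            ring
    exact le_of_mul_le_mul_left h5 hKr
  set y : ℝ := S * (K : ℝ) ^ (1 - c' / 3) with hy
  have hy0 : 0 ≤ y := mul_nonneg hS0 (Real.rpow_nonneg hKr.le _)
  have hy3 : y ^ 3 = B * (K : ℝ) ^ (3 - c') := by
    rw [hy, mul_pow, hS]
    congr 1
    · rw [← Real.rpow_natCast, ← Real.rpow_mul hB0]
      norm_num
    · rw [← Real.rpow_natCast, ← Real.rpow_mul hKr.le]
      congr 1
      push_cast
      ring
  set e : ℕ := ⌈y⌉₊ with he
  have hye : y ≤ e := Nat.le_ceil y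
  have hey : (e : ℝ) ≤ y + 1 := (Nat.ceil_lt_add_one hy0).le
  have hbe : #(BadT F K) ≤ e ^ 3 := by
    have h1 : (#(BadT F K) : ℝ) ≤ (e : ℝ) ^ 3 := by
      calc (#(BadT F K) : ℝ) ≤ y ^ 3 := by rw [hy3]; exact hbad
        _ ≤ (e : ℝ) ^ 3 := pow_le_pow_left₀ hy0 hye 3
    exact_mod_cast h1
  have hthird := third F K e hbe
  have hFF : F.filter (fun k => 1 ≤ k ∧ k ≤ K) = F := by
    refine filter_true_of_mem (fun k hk => ?_)
    rw [hF, mem_filter, mem_Icc] at hk
    exact hk.1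
  rw [hFF] at hthird
  have hKn : K ≤ 3 * ((K - 2) / 3) + 4 := by omega
  have h6 : (K : ℝ) ≤ 3 * (#F + 3 * e) + 4 := by
    have h7 : K ≤ 3 * (#F + 3 * e) + 4 := by omega
    exact_mod_cast h7
  have hKp : (1 : ℝ) ≤ (K : ℝ) ^ (1 - c' / 3) := Real.one_le_rpow hK1 (by linarith)
  have h8 : (e : ℝ) ≤ (S + 1) * (K : ℝ) ^ (1 - c' / 3) := by
    calc (e : ℝ) ≤ y + 1 := hey
      _ ≤ S * (K : ℝ) ^ (1 - c' / 3) + (K : ℝ) ^ (1 - c' / 3) := by
          rw [hy]; linarith
      _ = (S + 1) * (K : ℝ) ^ (1 - c' / 3) := by ring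
  have h9 : (3 * (S + 1) + 2) * (K : ℝ) ^ (1 - c' / 3) =
      3 * ((S + 1) * (K : ℝ) ^ (1 - c' / 3)) + 2 * (K : ℝ) ^ (1 - c' / 3) := by ring
  rw [h9]
  linarith

end Pool.Agent.Lib_helper49.AAM
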